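import Pool.Agent.W425.SL.Defs

set_option autoImplicit false

/-! Part L1: from formal power series operators to a polynomial unit (Krull). -/

namespace Pool.Agent.W368.SL

open MvPolynomial Pool.Agent.H628R4.TZ Pool.Agent.H628R4.TP Pool.Agent.W425.SM Pool.Agent.W425.SL

variable {N : ℕ}

/-- families `g_n` with `f ^ d * g_n = f ^ n * G (n)` -/
def Good (f : MvPolynomial (Fin N) ℂ) (g : ℕ → MvPolynomial (Fin N) ℂ) : Prop :=
  ∃ (d : ℕ) (G : Polynomial (MvPolynomial (Fin N) ℂ)), ∀ n : ℕ,
    f ^ d * g n = f ^ n * G.eval (n : MvPolynomial (Fin N) ℂ)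

variable {f : MvPolynomial (Fin N) ℂ}

theorem good_pow : Good f (fun n => f ^ n) := ⟨0, 1, fun n => by simp⟩

theorem Good.add {g h : ℕ → MvPolynomial (Fin N) ℂ} (hg : Good f g) (hh : Good f h) :
    Good f (fun n => g n + h n) := by
  obtain ⟨d, G, hG⟩ := hg
  obtain ⟨e, H, hH⟩ := hh
  refine ⟨d + e, Polynomial.C (f ^ e) * G + Polynomial.C (f ^ d) * H, fun n => ?_⟩
  rw [Polynomial.eval_add, Polynomial.eval_mul, Polynomial.eval_mul, Polynomial.eval_C,
    Polynomial.eval_C]
  calc f ^ (d + e) * (g n + h n) = f ^ e * (f ^ d * g n) + f ^ d * (f ^ e * h n) := by ring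
    _ = _ := by rw [hG, hH]; ring

theorem Good.mul_left {g : ℕ → MvPolynomial (Fin N) ℂ} (hg : Good f g)
    (h : MvPolynomial (Fin N) ℂ) : Good f (fun n => h * g n) := by
  obtain ⟨d, G, hG⟩ := hg
  refine ⟨d, Polynomial.C h * G, fun n => ?_⟩
  rw [Polynomial.eval_mul, Polynomial.eval_C]
  calc f ^ d * (h * g n) = h * (f ^ d * g n) := by ring
    _ = _ := by rw [hG]; ring

/-- derivative of the coefficients -/
noncomputable def dG (i : Fin N) (G : Polynomial (MvPolynomial (Fin N) ℂ)) :
    Polynomial (MvPolynomial (Fin N) ℂ) :=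
  ∑ j ∈ G.support, Polynomial.monomial j (pderiv i (G.coeff j))

theorem pderiv_eval (i : Fin N) (G : Polynomial (MvPolynomial (Fin N) ℂ)) (n : ℕ) :
    pderiv i (G.eval (n : MvPolynomial (Fin N) ℂ)) =
      (dG i G).eval (n : MvPolynomial (Fin N) ℂ) := by
  rw [dG, Polynomial.eval_finsetSum, Polynomial.eval_eq_sum, Polynomial.sum, map_sum]
  refine Finset.sum_congr rfl fun j _ => ?_
  rw [Polynomial.eval_monomial, Derivation.leibniz, ← Nat.cast_pow, Derivation.map_natCast,
    smul_zero, zero_add, smul_eq_mul, mul_comm]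

theorem Good.pderiv {g : ℕ → MvPolynomial (Fin N) ℂ} (hg : Good f g) (i : Fin N) :
    Good f (fun n => MvPolynomial.pderiv i (g n)) := by
  obtain ⟨d, G, hG⟩ := hg
  refine ⟨d + 1, Polynomial.C (MvPolynomial.pderiv i f) * (Polynomial.X * G) +
    Polynomial.C f * dG i G -
      Polynomial.C ((d : MvPolynomial (Fin N) ℂ) * MvPolynomial.pderiv i f) * G, fun n => ?_⟩
  have h1 := congrArg (MvPolynomial.pderiv i) (hG n)
  rw [Derivation.leibniz, Derivation.leibniz, Derivation.leibniz_pow, Derivation.leibniz_pow,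
    pderiv_eval] at h1
  simp only [smul_eq_mul, nsmul_eq_mul] at h1
  have h2 : ∀ k : ℕ, (k : MvPolynomial (Fin N) ℂ) * f ^ (k - 1) * f = k * f ^ k := by
    intro k
    rcases Nat.eq_zero_or_pos k with h | h
    · rw [h]; simp
    · rw [mul_assoc, ← pow_succ, Nat.sub_add_cancel h]
  simp only [Polynomial.eval_sub, Polynomial.eval_add, Polynomial.eval_mul, Polynomial.eval_C,
    Polynomial.eval_X]
  have h3 := h2 n
  have h4 := h2 d
  have h5 := hG n
  linear_combination f * h1 + (Polynomial.eval (n : MvPolynomial (Fin N) ℂ) G) *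
    MvPolynomial.pderiv i f * h3 - g n * MvPolynomial.pderiv i f * h4 -
    (d : MvPolynomial (Fin N) ℂ) * MvPolynomial.pderiv i f * h5

theorem good_weyl (Q : Module.End ℂ (MvPolynomial (Fin N) ℂ)) (hQ : Q ∈ weylS (Fin N)) :
    ∀ g, Good f g → Good f (fun n => Q (g n)) := by
  induction hQ using Algebra.adjoin_induction with
  | mem x hx =>
    intro g hg
    rcases hx with ⟨i, rfl⟩ | ⟨i, rfl⟩
    · exact hg.mul_left (X i)
    · exact hg.pderiv i
  | algebraMap r =>
    intro g hg
    have h1 := hg.mul_left (C r)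
    have h2 : (fun n => (algebraMap ℂ (Module.End ℂ (MvPolynomial (Fin N) ℂ)) r) (g n)) =
        fun n => C r * g n := by
      funext n
      rw [Module.algebraMap_end_apply, smul_eq_C_mul]
    rw [h2]
    exact h1
  | add x y _ _ hx hy =>
    intro g hg
    exact (hx g hg).add (hy g hg)
  | mul x y _ _ hx hy =>
    intro g hg
    exact hx _ (hy g hg)

theorem mulLeft_mem (c : MvPolynomial (Fin N) ℂ) :
    LinearMap.mulLeft ℂ c ∈ weylS (Fin N) := by
  induction c using MvPolynomial.induction_on with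
  | C a =>
    have : LinearMap.mulLeft ℂ (C a : MvPolynomial (Fin N) ℂ) =
        algebraMap ℂ (Module.End ℂ (MvPolynomial (Fin N) ℂ)) a := by
      refine LinearMap.ext fun p => ?_
      rw [Module.algebraMap_end_apply, smul_eq_C_mul]
      rfl
    rw [this]
    exact Subalgebra.algebraMap_mem _ _
  | add p q hp hq =>
    have : LinearMap.mulLeft ℂ (p + q) = LinearMap.mulLeft ℂ p + LinearMap.mulLeft ℂ q := by
      exact LinearMap.ext fun r => add_mul p q r
    rw [this]
    exact add_mem hp hq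
  | mul_X p i hp =>
    have : LinearMap.mulLeft ℂ (p * X i) = LinearMap.mulLeft ℂ p * LinearMap.mulLeft ℂ (X i) := by
      exact LinearMap.ext fun r => mul_assoc p (X i) r
    rw [this]
    exact mul_mem hp (Algebra.subset_adjoin (Or.inl ⟨i, rfl⟩))

/-- the embedding in the ring of power series -/
noncomputable abbrev ph (N : ℕ) : MvPolynomial (Fin N) ℂ →+* MvPowerSeries (Fin N) ℂ :=
  MvPolynomial.coeToMvPowerSeries.ringHom

theorem ph_apply (p : MvPolynomial (Fin N) ℂ) : ph N p = (p : MvPowerSeries (Fin N) ℂ) := rfl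

theorem ph_inj : Function.Injective (ph N) := MvPolynomial.coe_injective _ _

/-- the Krull intersection step -/
theorem krull {T n : ℕ} (B : Fin T → MvPolynomial (Fin N) ℂ)
    (A : Fin n → Fin T → MvPolynomial (Fin N) ℂ) (p : Fin n → MvPowerSeries (Fin N) ℂ)
    (h : ∀ j, ph N (B j) = ∑ k, p k * ph N (A k j)) :
    ∃ (r : MvPolynomial (Fin N) ℂ) (c : Fin n → MvPolynomial (Fin N) ℂ),
      constantCoeff r = 0 ∧ ∀ j, (1 - r) * B j = ∑ k, c k * A k j := by
  set I : Ideal (MvPolynomial (Fin N) ℂ) := idealOfVars (Fin N) ℂ with hI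
  set U : Submodule (MvPolynomial (Fin N) ℂ) (Fin T → (MvPolynomial (Fin N) ℂ)) := Submodule.span (MvPolynomial (Fin N) ℂ) (Set.range A) with hU
  have hx : U.mkQ B ∈ (⨅ i : ℕ, I ^ i • ⊤ : Submodule (MvPolynomial (Fin N) ℂ) ((Fin T → (MvPolynomial (Fin N) ℂ)) ⧸ U)) := by
    rw [Submodule.mem_iInf]
    intro i
    have h1 : ∀ j, B j - ∑ k, (p k).truncTotal i * A k j ∈ I ^ i := by
      intro j
      have h2 := congrArg (MvPowerSeries.truncTotalAlgHom (Fin N) ℂ i) (h j)
      rw [map_sum] at h2
      simp only [map_mul] at h2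
      have h3 : ∀ q : (MvPolynomial (Fin N) ℂ), MvPowerSeries.truncTotalAlgHom (Fin N) ℂ i (ph N q) =
          Ideal.Quotient.mk (I ^ i) q := fun q =>
        (MvPowerSeries.truncTotalAlgHom (Fin N) ℂ i).commutes q
      have h4 : ∀ q : MvPowerSeries (Fin N) ℂ, MvPowerSeries.truncTotalAlgHom (Fin N) ℂ i q =
          Ideal.Quotient.mk (I ^ i) (q.truncTotal i) := fun q => rfl
      rw [h3] at h2
      rw [← Ideal.Quotient.eq, map_sum]
      simp only [map_mul]
      rw [h2]
      refine Finset.sum_congr rfl fun k _ => ?_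
      rw [h3, h4]
    have h5 : U.mkQ B = ∑ j : Fin T, (B j - ∑ k, (p k).truncTotal i * A k j) •
        U.mkQ (Pi.single j 1) := by
      have h6 : B = ∑ j : Fin T, (B j - ∑ k, (p k).truncTotal i * A k j) •
          (Pi.single j (1 : (MvPolynomial (Fin N) ℂ)) : Fin T → (MvPolynomial (Fin N) ℂ)) + ∑ k, (p k).truncTotal i • A k := by
        funext j
        rw [Pi.add_apply, Finset.sum_apply, Finset.sum_apply, Finset.sum_eq_single j]
        · simp
        · intro l _ hl
          rw [Pi.smul_apply, Pi.single_eq_of_ne (Ne.symm hl), smul_zero]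
        · intro hj
          exact absurd (Finset.mem_univ _) hj
      have h7 : U.mkQ (∑ k, (p k).truncTotal i • A k) = 0 := by
        rw [Submodule.mkQ_apply, Submodule.Quotient.mk_eq_zero]
        exact Submodule.sum_mem _ fun k _ => U.smul_mem _ (Submodule.subset_span ⟨k, rfl⟩)
      conv_lhs => rw [h6]
      rw [map_add, h7, add_zero, map_sum]
      simp only [map_smul]
    rw [h5]
    exact Submodule.sum_mem _ fun j _ => Submodule.smul_mem_smul (h1 j) trivial
  obtain ⟨r, hr⟩ := (Ideal.mem_iInf_smul_pow_eq_bot_iff I (U.mkQ B)).1 hx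
  have h8 : (1 - (r : (MvPolynomial (Fin N) ℂ))) • B ∈ U := by
    rw [← Submodule.Quotient.mk_eq_zero, ← Submodule.mkQ_apply, map_smul, sub_smul, one_smul, hr,
      sub_self]
  rw [hU, Submodule.mem_span_range_iff_exists_fun] at h8
  obtain ⟨c, hc⟩ := h8
  refine ⟨r, c, ?_, fun j => ?_⟩
  · have h9 : (r : (MvPolynomial (Fin N) ℂ)) ∈ I ^ 1 := by
      rw [pow_one]
      exact r.2
    have h10 := (mem_pow_idealOfVars_iff' 1 (r : (MvPolynomial (Fin N) ℂ))).1 h9 0 (by simp)
    rw [MvPolynomial.constantCoeff_eq]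
    exact h10
  · have h9 := congrFun hc j
    rw [Finset.sum_apply] at h9
    exact h9.symm

theorem weyl_family (f : MvPolynomial (Fin N) ℂ) (Q : weylS (Fin N)) :
    ∃ (d : ℕ) (G : Polynomial (MvPolynomial (Fin N) ℂ)), ∀ n : ℕ,
      f ^ d * (Q : Module.End ℂ (MvPolynomial (Fin N) ℂ)) (f ^ n) =
        f ^ n * G.eval (n : MvPolynomial (Fin N) ℂ) :=
  good_weyl Q.1 Q.2 _ good_pow

theorem taskL1 : TaskL1 := by
  intro N f b hf h0 hloc
  obtain ⟨n, m, p, Q, hQ⟩ := hloc
  choose d G hG using fun k => weyl_family f (Q k)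
  have hfφ : ph N f ≠ 0 := fun h => hf (ph_inj (h.trans (map_zero _).symm))
  set D := ∑ k, d k with hD
  have hdD : ∀ k, d k ≤ D := fun k => Finset.single_le_sum (f := d) (fun _ _ => Nat.zero_le _)
    (Finset.mem_univ k)
  set G' : Fin n → Polynomial (MvPolynomial (Fin N) ℂ) :=
    fun k => Polynomial.C (f ^ (D - d k)) * G k with hG'
  have hG'e : ∀ k (s : ℕ), f ^ D * (Q k : Module.End ℂ (MvPolynomial (Fin N) ℂ)) (f ^ s) =
      f ^ s * (G' k).eval (s : MvPolynomial (Fin N) ℂ) := by
    intro k s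
    rw [hG', Polynomial.eval_mul, Polynomial.eval_C]
    calc f ^ D * (Q k : Module.End ℂ (MvPolynomial (Fin N) ℂ)) (f ^ s)
        = f ^ (D - d k) * (f ^ (d k) *
          (Q k : Module.End ℂ (MvPolynomial (Fin N) ℂ)) (f ^ s)) := by
          rw [← mul_assoc, ← pow_add, Nat.sub_add_cancel (hdD k)]
      _ = _ := by rw [hG]; ring
  set A : Fin n → Polynomial (MvPolynomial (Fin N) ℂ) := fun k =>
    Polynomial.X ^ (m k) * (Polynomial.C f * (G' k).comp (Polynomial.X + 1)) with hA
  have hAe : ∀ k (z : MvPolynomial (Fin N) ℂ), (A k).eval z =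
      z ^ (m k) * (f * (G' k).eval (z + 1)) := by
    intro k z
    rw [hA]
    simp
  set PB : Polynomial (MvPolynomial (Fin N) ℂ) := b.map C * Polynomial.C (f ^ D) with hPB
  have hPBe : ∀ z : ℂ, PB.eval (C z) = C (b.eval z) * f ^ D := by
    intro z
    rw [hPB, Polynomial.eval_mul, Polynomial.eval_C, Polynomial.eval_map,
      Polynomial.eval₂_at_apply]
  -- the relation for natural numbers
  have hstar : ∀ s : ℕ, ph N (PB.eval (s : MvPolynomial (Fin N) ℂ)) =
      ∑ k, p k * ph N ((A k).eval (s : MvPolynomial (Fin N) ℂ)) := by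
    intro s
    have h1 := hQ s
    have h2 : ph N (f ^ s) ≠ 0 := by
      rw [map_pow]
      exact pow_ne_zero _ hfφ
    apply mul_left_cancel₀ h2
    have h3 : (s : MvPolynomial (Fin N) ℂ) = C (s : ℂ) := (map_natCast C s).symm
    have h4 : ph N (C (b.eval (s : ℂ))) * ph N (f ^ s) = ∑ k, ph N (C ((s : ℂ) ^ m k)) *
        (p k * ph N ((Q k : Module.End ℂ (MvPolynomial (Fin N) ℂ)) (f ^ (s + 1)))) := by
      have h5 : ∀ (z : ℂ) (x : MvPowerSeries (Fin N) ℂ), z • x = ph N (C z) * x := by
        intro z x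
        rw [ph_apply, MvPolynomial.coe_C, ← MvPowerSeries.smul_eq_C_mul]
      simp only [h5] at h1
      exact h1
    rw [h3, hPBe, map_mul]
    calc ph N (f ^ s) * (ph N (C (b.eval (s : ℂ))) * ph N (f ^ D))
        = (ph N (C (b.eval (s : ℂ))) * ph N (f ^ s)) * ph N (f ^ D) := by ring
      _ = ∑ k, (p k * (ph N (C ((s : ℂ) ^ m k)) * ph N (f ^ D *
          (Q k : Module.End ℂ (MvPolynomial (Fin N) ℂ)) (f ^ (s + 1))))) := by
          rw [h4, Finset.sum_mul]
          refine Finset.sum_congr rfl fun k _ => ?_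
          rw [map_mul (ph N) (f ^ D)]
          ring
      _ = _ := by
          rw [Finset.mul_sum]
          refine Finset.sum_congr rfl fun k _ => ?_
          rw [hG'e, hAe, ← map_pow C, ← h3]
          have h6 : ((s : MvPolynomial (Fin N) ℂ) + 1) = ((s + 1 : ℕ) : MvPolynomial (Fin N) ℂ) := by
            push_cast
            rfl
          rw [h6, map_mul, map_mul, map_mul, pow_succ, map_mul]
          ring
  -- the polynomial identity
  have hpoly : PB.map (ph N) = ∑ k, Polynomial.C (p k) * (A k).map (ph N) := by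
    have hdom : IsDomain (MvPowerSeries (Fin N) ℂ) := NoZeroDivisors.to_isDomain _
    apply Polynomial.eq_of_infinite_eval_eq
    have hinj : Function.Injective (fun s : ℕ => (s : MvPowerSeries (Fin N) ℂ)) := by
      intro a b hab
      have h1 : ph N ((a : ℕ) : MvPolynomial (Fin N) ℂ) = ph N ((b : ℕ) : MvPolynomial (Fin N) ℂ) := by
        rw [map_natCast, map_natCast]
        exact hab
      exact Nat.cast_injective (ph_inj h1)
    refine (Set.infinite_range_of_injective hinj).mono ?_
    rintro _ ⟨s, rfl⟩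
    change Polynomial.eval (s : MvPowerSeries (Fin N) ℂ) _ =
      Polynomial.eval (s : MvPowerSeries (Fin N) ℂ) _
    rw [Polynomial.eval_finsetSum]
    simp only [Polynomial.eval_mul, Polynomial.eval_C]
    rw [Polynomial.eval_natCast_map, hstar]
    refine Finset.sum_congr rfl fun k _ => ?_
    rw [Polynomial.eval_natCast_map]
  constructor
  · -- the value at -1
    have h1 := congrArg (Polynomial.eval (ph N (-1))) hpoly
    rw [Polynomial.eval_finsetSum, Polynomial.eval_map_apply] at h1
    simp only [Polynomial.eval_mul, Polynomial.eval_C, Polynomial.eval_map_apply] at h1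
    have h2 : (-1 : MvPolynomial (Fin N) ℂ) = C (-1) := by simp
    have h3 : ∀ k, (A k).eval (-1) = f ^ D * (f * ((-1) ^ (m k) *
        (Q k : Module.End ℂ (MvPolynomial (Fin N) ℂ)) 1)) := by
      intro k
      have h4 := hG'e k 0
      rw [pow_zero, one_mul, Nat.cast_zero] at h4
      rw [hAe, neg_add_cancel, ← h4]
      ring
    have hPm : PB.eval (-1) = C (b.eval (-1)) * f ^ D := by
      rw [h2, hPBe]
    simp only [h3] at h1
    rw [hPm] at h1
    have h5 : ph N (f ^ D) ≠ 0 := by
      rw [map_pow]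
      exact pow_ne_zero _ hfφ
    have h6 : ph N (C (b.eval (-1))) = ph N f * ∑ k, p k * ph N ((-1) ^ (m k) *
        (Q k : Module.End ℂ (MvPolynomial (Fin N) ℂ)) 1) := by
      apply mul_left_cancel₀ h5
      rw [← map_mul, mul_comm (f ^ D), h1, Finset.mul_sum, Finset.mul_sum]
      refine Finset.sum_congr rfl fun k _ => ?_
      rw [map_mul, map_mul]
      ring
    have h7 := congrArg (MvPowerSeries.constantCoeff (σ := Fin N) (R := ℂ)) h6
    rw [map_mul] at h7
    have h8 : ∀ q : MvPolynomial (Fin N) ℂ, MvPowerSeries.constantCoeff (ph N q) =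
        constantCoeff q := by
      intro q
      rw [ph_apply, ← MvPowerSeries.coeff_zero_eq_constantCoeff_apply, MvPolynomial.coeff_coe]
      rfl
    rw [h8, h8, h0, zero_mul, constantCoeff_C] at h7
    exact h7
  · -- the polynomial unit
    set T := PB.natDegree + ∑ k, (A k).natDegree + 1 with hT
    obtain ⟨r, c, hr, hc⟩ := krull (fun j : Fin T => PB.coeff j) (fun k (j : Fin T) => (A k).coeff j)
      p (by
        intro j
        have h1 := congrArg (fun P => Polynomial.coeff P (j : ℕ)) hpoly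
        simp only [Polynomial.coeff_map, Polynomial.finsetSum_coeff, Polynomial.coeff_C_mul] at h1
        exact h1)
    have hid : Polynomial.C (1 - r) * PB = ∑ k, Polynomial.C (c k) * A k := by
      ext1 j
      rw [Polynomial.coeff_C_mul, Polynomial.finsetSum_coeff]
      simp only [Polynomial.coeff_C_mul]
      by_cases hj : j < T
      · exact hc ⟨j, hj⟩
      · rw [Polynomial.coeff_eq_zero_of_natDegree_lt (by omega), mul_zero]
        symm
        refine Finset.sum_eq_zero fun k _ => ?_
        have h1 : (A k).natDegree ≤ ∑ k, (A k).natDegree :=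
          Finset.single_le_sum (f := fun k => (A k).natDegree) (fun _ _ => Nat.zero_le _)
            (Finset.mem_univ k)
        rw [Polynomial.coeff_eq_zero_of_natDegree_lt (by omega), mul_zero]
    refine ⟨1 - r, ∑ k, Finsupp.single (m k) (⟨LinearMap.mulLeft ℂ (c k), mulLeft_mem _⟩ * Q k),
      by rw [map_sub, hr, map_one, sub_zero], fun s => ?_⟩
    have h1 := congrArg (Polynomial.eval (s : MvPolynomial (Fin N) ℂ)) hid
    rw [Polynomial.eval_finsetSum, Polynomial.eval_mul, Polynomial.eval_C] at h1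
    simp only [Polynomial.eval_mul, Polynomial.eval_C, hAe] at h1
    have h3 : (s : MvPolynomial (Fin N) ℂ) = C (s : ℂ) := (map_natCast C s).symm
    have h6 : ((s : MvPolynomial (Fin N) ℂ) + 1) = ((s + 1 : ℕ) : MvPolynomial (Fin N) ℂ) := by
      push_cast
      rfl
    have hPs : PB.eval (s : MvPolynomial (Fin N) ℂ) = C (b.eval (s : ℂ)) * f ^ D := by
      rw [h3, hPBe]
    rw [hPs] at h1
    have hfD : f ^ D ≠ 0 := pow_ne_zero _ hf
    have hsum := Finsupp.sum_finsetSum_index (s := (Finset.univ : Finset (Fin n)))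
      (g := fun k => Finsupp.single (m k) (⟨LinearMap.mulLeft ℂ (c k), mulLeft_mem _⟩ * Q k))
      (h := fun (m : ℕ) (Q : weylS (Fin N)) => ((s : ℂ) ^ m) •
        (Q : Module.End ℂ (MvPolynomial (Fin N) ℂ)) (f ^ (s + 1)))
      (by
        intro a
        rw [Subalgebra.coe_zero, LinearMap.zero_apply, smul_zero]) (by
        intro a x y
        rw [Subalgebra.coe_add, LinearMap.add_apply, smul_add])
    rw [← hsum]
    apply mul_left_cancel₀ hfD
    calc f ^ D * (C (b.eval (s : ℂ)) * (1 - r) * f ^ s)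
        = f ^ s * ((1 - r) * (C (b.eval (s : ℂ)) * f ^ D)) := by ring
      _ = ∑ k, c k * (C ((s : ℂ) ^ m k) * (f ^ D *
          (Q k : Module.End ℂ (MvPolynomial (Fin N) ℂ)) (f ^ (s + 1)))) := by
          rw [h1, Finset.mul_sum]
          refine Finset.sum_congr rfl fun k _ => ?_
          rw [hG'e, h6, map_pow C, ← h3, pow_succ]
          ring
      _ = _ := by
          rw [Finset.mul_sum]
          refine Finset.sum_congr rfl fun k _ => ?_
          rw [Finsupp.sum_single_index (by
            rw [Subalgebra.coe_zero, LinearMap.zero_apply, smul_zero])]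
          rw [smul_eq_C_mul]
          change _ = f ^ D * (C ((s : ℂ) ^ m k) * (c k *
            (Q k : Module.End ℂ (MvPolynomial (Fin N) ℂ)) (f ^ (s + 1))))
          ring

end Pool.Agent.W368.SL
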